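import Mathlib
import Pool.Agent.V11190.Bicycle4

/-!
# Bicycle monodromy of strictly convex front tracks: one transition from hyperbolic to elliptic

Answer to Q1 of MP_08099c_gt: yes. The analytic part is the unused lemma `transition` of the
starting file `Pool/Agent/V11190/Bicycle3.lean` on the analytic data of a positively oriented
curve, with `s = 1 / ℓ`, and `IsConvexTrack.toTrack` of `Bicycle4.lean`. New here: the statement of
the page in terms of the front track and the length, and the curves of negative orientation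
(reflection in the real axis).
-/

set_option autoImplicit false

open Set Filter Topology
open Pool.Agent.V11190.Bicycle

namespace Pool.Agent.Results.MP_08099c_gt.Transition

/-- `θ` is a solution on `[0, T]` of the no-skid equation `ℓ θ' = Γ' · (-sin θ, cos θ)` for the front
track `Γ` and the bicycle length `l`. -/
def IsSteering (Γ : ℝ → ℂ) (T l : ℝ) (θ : ℝ → ℝ) : Prop :=
  ∀ t ∈ Icc 0 T, HasDerivWithinAt θ
    ((-(deriv Γ t).re * Real.sin (θ t) + (deriv Γ t).im * Real.cos (θ t)) / l) (Icc 0 T) t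

/-- `M` in `SL(2, ℝ)` induces the monodromy `θ(0) ↦ θ(T)` of the front track `Γ` of period `T` for
the length `l`, the circle of angles being the projective line through
`θ ↦ [cos (θ / 2) : sin (θ / 2)]`. -/
def IsLift (Γ : ℝ → ℂ) (T l : ℝ) (M : Matrix (Fin 2) (Fin 2) ℝ) : Prop :=
  M.det = 1 ∧ ∀ θ : ℝ → ℝ, IsSteering Γ T l θ → ∃ c : ℝ, c ≠ 0 ∧
    M.mulVec ![Real.cos (θ 0 / 2), Real.sin (θ 0 / 2)] =
      c • ![Real.cos (θ T / 2), Real.sin (θ T / 2)]

/-- The monodromy is hyperbolic: it has a lift `M`, and `|tr M| > 2` for all lifts. -/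
def Hyperbolic (Γ : ℝ → ℂ) (T l : ℝ) : Prop :=
  (∃ M, IsLift Γ T l M) ∧ ∀ M, IsLift Γ T l M → 2 < |M.trace|

/-- The monodromy is elliptic: it has a lift `M`, and `|tr M| < 2` for all lifts. -/
def Elliptic (Γ : ℝ → ℂ) (T l : ℝ) : Prop :=
  (∃ M, IsLift Γ T l M) ∧ ∀ M, IsLift Γ T l M → |M.trace| < 2

/-- A front track as in the page: `Γ` is a regular simple closed curve of class `C^2`, of period
`T`, which is the boundary of the compact strictly convex plane region `K`. -/
structure IsConvexFront (Γ : ℝ → ℂ) (T : ℝ) (K : Set ℂ) : Prop where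
  /-- the period is positive -/
  period_pos : 0 < T
  /-- `Γ` is of class `C^2` -/
  smooth : ContDiff ℝ 2 Γ
  /-- `Γ` has period `T` -/
  periodic : ∀ t, Γ (t + T) = Γ t
  /-- `Γ` is regular -/
  regular : ∀ t, deriv Γ t ≠ 0
  /-- `Γ` is simple -/
  simple : InjOn Γ (Ico 0 T)
  /-- the region is compact -/
  compact : IsCompact K
  /-- the region is strictly convex -/
  strict : StrictConvex ℝ K
  /-- the curve is the boundary of the region -/
  boundary : frontier K = range Γ

theorem steering_iff (Γ : ℝ → ℂ) (T l : ℝ) (θ : ℝ → ℝ) :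
    IsSteering Γ T l θ ↔
      IsSol (1 / l) T (fun t => (deriv Γ t).re) (fun t => (deriv Γ t).im) θ := by
  have e : ∀ t, (-(deriv Γ t).re * Real.sin (θ t) + (deriv Γ t).im * Real.cos (θ t)) / l =
      1 / l * ((deriv Γ t).im * Real.cos (θ t) - (deriv Γ t).re * Real.sin (θ t)) := by
    intro t
    ring
  simp only [IsSteering, IsSol, e]

theorem lift_iff (Γ : ℝ → ℂ) (T l : ℝ) (M : Matrix (Fin 2) (Fin 2) ℝ) :
    IsLift Γ T l M ↔
      IsMonodromy (1 / l) T (fun t => (deriv Γ t).re) (fun t => (deriv Γ t).im) M := by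
  simp only [IsLift, IsMonodromy, steering_iff]

/-- positively oriented curves -/
theorem pos {Γ : ℝ → ℂ} {T : ℝ} {K : Set ℂ} (h : IsConvexTrack Γ T K) (ho : PosOriented Γ K) :
    ∃ l₀ : ℝ, 0 < l₀ ∧ (∀ l, 0 < l → l < l₀ → Hyperbolic Γ T l) ∧
      (∀ l, l₀ < l → Elliptic Γ T l) := by
  obtain ⟨v, φ, φ', tr⟩ := h.toTrack ho
  obtain ⟨s₀, hs₀, h1, h2⟩ := transition tr
  refine ⟨1 / s₀, one_div_pos.2 hs₀, fun l hl hlt => ?_, fun l hlt => ?_⟩
  · have h3 : s₀ < 1 / l := by
      rw [lt_div_iff₀ hl]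
      rw [lt_div_iff₀ hs₀] at hlt
      linarith
    obtain ⟨⟨M, hM⟩, hall⟩ := h1 _ h3
    exact ⟨⟨M, (lift_iff _ _ _ _).2 hM⟩, fun N hN => hall N ((lift_iff _ _ _ _).1 hN)⟩
  · have hl : 0 < l := lt_trans (one_div_pos.2 hs₀) hlt
    have h3 : 1 / l < s₀ := by
      rw [div_lt_iff₀ hl]
      rw [div_lt_iff₀ hs₀] at hlt
      linarith
    obtain ⟨⟨M, hM⟩, hall⟩ := h2 _ (one_div_pos.2 hl) h3
    exact ⟨⟨M, (lift_iff _ _ _ _).2 hM⟩, fun N hN => hall N ((lift_iff _ _ _ _).1 hN)⟩

/-- the reflected curve -/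
noncomputable def refl (Γ : ℝ → ℂ) : ℝ → ℂ := fun t => Complex.conjLIE (Γ t)

theorem deriv_refl {Γ : ℝ → ℂ} (h : ContDiff ℝ 2 Γ) (t : ℝ) :
    deriv (refl Γ) t = Complex.conjLIE (deriv Γ t) := by
  have h1 : HasDerivAt Γ (deriv Γ t) t := (h.differentiable (by norm_num) t).hasDerivAt
  exact ((Complex.conjLIE.toContinuousLinearEquiv.toContinuousLinearMap.hasFDerivAt
    (x := Γ t)).comp_hasDerivAt t h1).deriv

theorem refl_track {Γ : ℝ → ℂ} {T : ℝ} {K : Set ℂ} (h : IsConvexTrack Γ T K) :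
    IsConvexTrack (refl Γ) T (Complex.conjLIE '' K) where
  period_pos := h.period_pos
  smooth := Complex.conjLIE.toContinuousLinearEquiv.toContinuousLinearMap.contDiff.comp h.smooth
  periodic t := by simp only [refl, h.periodic]
  regular t := by
    rw [deriv_refl h.smooth]
    intro h0
    exact h.regular t (Complex.conjLIE.injective (by rw [h0, map_zero]))
  simple := by
    intro a ha b hb hab
    exact h.simple ha hb (Complex.conjLIE.injective hab)
  compact := h.compact.image Complex.conjLIE.continuous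
  strict := h.strict.linear_image Complex.conjLIE.toLinearEquiv.toLinearMap
    Complex.conjLIE.toHomeomorph.isOpenMap
  boundary := by
    have h1 : frontier (Complex.conjLIE '' K) = Complex.conjLIE '' frontier K :=
      (Complex.conjLIE.toHomeomorph.image_frontier K).symm
    rw [h1, h.boundary, ← range_comp]
    rfl

theorem refl_pos {Γ : ℝ → ℂ} {T : ℝ} {K : Set ℂ} (h : IsConvexTrack Γ T K)
    (ho : NegOriented Γ K) : PosOriented (refl Γ) (Complex.conjLIE '' K) := by
  intro t p hp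
  have h1 : interior (Complex.conjLIE '' K) = Complex.conjLIE '' interior K :=
    (Complex.conjLIE.toHomeomorph.image_interior K).symm
  rw [h1] at hp
  obtain ⟨q, hq, rfl⟩ := hp
  have h2 := ho t q hq
  rw [deriv_refl h.smooth]
  simp only [cr, refl, Complex.conjLIE_apply, Complex.conj_re, Complex.conj_im, Complex.sub_re,
    Complex.sub_im] at h2 ⊢
  linarith

theorem steering_refl {Γ : ℝ → ℂ} (h : ContDiff ℝ 2 Γ) {T l : ℝ} {θ : ℝ → ℝ}
    (hθ : IsSteering Γ T l θ) : IsSteering (refl Γ) T l (fun t => -θ t) := by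
  intro t ht
  refine (hθ t ht).neg.congr_deriv ?_
  rw [deriv_refl h, Complex.conjLIE_apply, Complex.conj_re, Complex.conj_im, Real.sin_neg,
    Real.cos_neg]
  ring

/-- conjugation with the reflection -/
def flip (M : Matrix (Fin 2) (Fin 2) ℝ) : Matrix (Fin 2) (Fin 2) ℝ :=
  !![M 0 0, -M 0 1; -M 1 0, M 1 1]

theorem flip_flip (M : Matrix (Fin 2) (Fin 2) ℝ) : flip (flip M) = M := by
  ext i j
  fin_cases i <;> fin_cases j <;> simp [flip]

theorem flip_trace (M : Matrix (Fin 2) (Fin 2) ℝ) : (flip M).trace = M.trace := by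
  simp [flip, Matrix.trace_fin_two]

theorem lift_flip {Γ Δ : ℝ → ℂ} {T l : ℝ} {M : Matrix (Fin 2) (Fin 2) ℝ}
    (hst : ∀ θ, IsSteering Δ T l θ → IsSteering Γ T l (fun t => -θ t))
    (hM : IsLift Γ T l M) : IsLift Δ T l (flip M) := by
  obtain ⟨hdet, hM⟩ := hM
  refine ⟨?_, fun θ hθ => ?_⟩
  · rw [Matrix.det_fin_two] at hdet ⊢
    simp only [flip, Matrix.of_apply, Matrix.cons_val', Matrix.cons_val_zero, Matrix.cons_val_one,
      Matrix.cons_val_fin_one]
    linarith
  · obtain ⟨c, hc, h1⟩ := hM _ (hst θ hθ)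
    refine ⟨c, hc, ?_⟩
    have h10 := congrFun h1 0
    have h11 := congrFun h1 1
    simp only [neg_div, Real.cos_neg, Real.sin_neg] at h10 h11
    simp [Matrix.mulVec, dotProduct, Fin.sum_univ_two] at h10 h11
    ext i
    fin_cases i
    · simp [flip, Matrix.mulVec, dotProduct, Fin.sum_univ_two]
      linarith
    · simp [flip, Matrix.mulVec, dotProduct, Fin.sum_univ_two]
      linarith

theorem steering_of_refl {Γ : ℝ → ℂ} (h : ContDiff ℝ 2 Γ) {T l : ℝ} {θ : ℝ → ℝ}
    (hθ : IsSteering (refl Γ) T l θ) : IsSteering Γ T l (fun t => -θ t) := by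
  intro t ht
  refine (hθ t ht).neg.congr_deriv ?_
  rw [deriv_refl h, Complex.conjLIE_apply, Complex.conj_re, Complex.conj_im, Real.sin_neg,
    Real.cos_neg]
  ring

/-- For every simple strictly convex closed front track `Γ` there is `l₀ > 0` such that the
monodromy is hyperbolic for all lengths `l < l₀` and elliptic for all lengths `l > l₀`. -/
theorem result (Γ : ℝ → ℂ) (T : ℝ) (K : Set ℂ) (hΓ : IsConvexFront Γ T K) :
    ∃ l₀ : ℝ, 0 < l₀ ∧ (∀ l : ℝ, 0 < l → l < l₀ → Hyperbolic Γ T l) ∧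
      (∀ l : ℝ, l₀ < l → Elliptic Γ T l) := by
  have h : IsConvexTrack Γ T K := ⟨hΓ.period_pos, hΓ.smooth, hΓ.periodic, hΓ.regular, hΓ.simple,
    hΓ.compact, hΓ.strict, hΓ.boundary⟩
  rcases h.oriented with ho | ho
  · exact pos h ho
  · obtain ⟨l₀, hl₀, h1, h2⟩ := pos (refl_track h) (refl_pos h ho)
    have key1 : ∀ l M, IsLift (refl Γ) T l M → IsLift Γ T l (flip M) := fun l M hM =>
      lift_flip (fun θ hθ => steering_refl h.smooth hθ) hM
    have key2 : ∀ l M, IsLift Γ T l M → IsLift (refl Γ) T l (flip M) := fun l M hM =>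
      lift_flip (fun θ hθ => steering_of_refl h.smooth hθ) hM
    refine ⟨l₀, hl₀, fun l hl hlt => ?_, fun l hlt => ?_⟩
    · obtain ⟨⟨M, hM⟩, hall⟩ := h1 l hl hlt
      refine ⟨⟨_, key1 l M hM⟩, fun N hN => ?_⟩
      have := hall _ (key2 l N hN)
      rwa [flip_trace] at this
    · obtain ⟨⟨M, hM⟩, hall⟩ := h2 l hlt
      refine ⟨⟨_, key1 l M hM⟩, fun N hN => ?_⟩
      have := hall _ (key2 l N hN)
      rwa [flip_trace] at this

end Pool.Agent.Results.MP_08099c_gt.Transition
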